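import Mathlib
import Pool.Agent.H737R3.Points

/-!
Galois descent for forms which vanish at separable points, and Chudnovsky's inequality for forms
over `K` which vanish to high order at points with coordinates in the separable closure of `K`.
-/

set_option autoImplicit false

universe u

namespace Pool.Agent.helper23_Chud

open MvPolynomial Pool.Agent.Chud Pool.Agent.H580C Pool.Agent.H737R3

section order

variable {K E : Type u} [Field K] [Field E] {N : ℕ}

theorem hd_map (φ : K →+* E) (b : Fin N →₀ ℕ) (F : MvPolynomial (Fin N) K) :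
    hd b (map φ F) = map φ (hd b F) := by
  ext m
  rw [t_HC, coeff_map, coeff_map, t_HC, map_mul, map_natCast]

/-- vanishing to order `m` at `v`, in terms of Hasse derivatives over the ground field -/
theorem mem_mI_map_iff (φ : K →+* E) (v : Fin N → E) (F : MvPolynomial (Fin N) K) (m : ℕ) :
    map φ F ∈ mI v ^ m ↔ ∀ b : Fin N →₀ ℕ, b.degree < m → eval₂ φ v (hd b F) = 0 := by
  rw [(t_HV E N v (map φ F)).2 m]
  refine forall_congr' fun b => forall_congr' fun _ => ?_
  rw [hd_map, eval_map]

end order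

section descent

variable {K E : Type u} [Field K] [Field E] [Algebra K E] [FiniteDimensional K E] [IsGalois K E]
  {N : ℕ}

/-- Galois descent: a nonzero form over `E` which vanishes at all conjugates of the points of `V`
gives a nonzero form of the same degree over `K` which vanishes at the points of `V`. -/
theorem descent (V : Set (Fin N → E)) (G : MvPolynomial (Fin N) E) (d : ℕ) (hG0 : G ≠ 0)
    (hG : G.IsHomogeneous d)
    (hGv : ∀ v ∈ V, ∀ σ : E ≃ₐ[K] E, eval (fun i => σ (v i)) G = 0) :
    ∃ H : MvPolynomial (Fin N) K, H ≠ 0 ∧ H.IsHomogeneous d ∧ ∀ v ∈ V, aeval v H = 0 := by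
  classical
  obtain ⟨c₀, hc₀⟩ := MvPolynomial.ne_zero_iff.1 hG0
  obtain ⟨y, hy⟩ : ∃ y : E, Algebra.trace K E y ≠ 0 := by
    by_contra hcon
    push Not at hcon
    exact Algebra.trace_ne_zero K E (LinearMap.ext hcon)
  set c : E := y / coeff c₀ G with hc
  have hcc : c * coeff c₀ G = y := by
    rw [hc, div_mul_cancel₀ _ hc₀]
  set H : MvPolynomial (Fin N) K :=
    ∑ m ∈ G.support, monomial m (Algebra.trace K E (c * coeff m G)) with hH
  have hcoeff : ∀ m, coeff m H = Algebra.trace K E (c * coeff m G) := by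
    intro m
    rw [hH, coeff_sum]
    by_cases hm : m ∈ G.support
    · rw [Finset.sum_eq_single m]
      · rw [coeff_monomial, if_pos rfl]
      · intro b _ hb
        rw [coeff_monomial, if_neg hb]
      · intro h
        exact absurd hm h
    · rw [notMem_support_iff.1 hm, mul_zero, map_zero]
      apply Finset.sum_eq_zero
      intro b hb
      rw [coeff_monomial, if_neg]
      rintro rfl
      exact hm hb
  refine ⟨H, ?_, ?_, ?_⟩
  · intro h
    have := hcoeff c₀
    rw [h, coeff_zero, hcc] at this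
    exact hy this.symm
  · intro m hm
    apply hG
    intro h0
    apply hm
    rw [hcoeff, h0, mul_zero, map_zero]
  · intro v hv
    have h1 : aeval v H = ∑ m ∈ G.support,
        (∑ σ : E ≃ₐ[K] E, σ (c * coeff m G)) * ∏ i, v i ^ m i := by
      rw [hH, map_sum]
      apply Finset.sum_congr rfl
      intro m _
      rw [aeval_monomial, Algebra.algebraMap_eq_smul_one, ← Algebra.algebraMap_eq_smul_one,
        trace_eq_sum_automorphisms, Finsupp.prod_fintype _ _ (by simp)]
    have h2 : ∀ σ : E ≃ₐ[K] E, ∑ m ∈ G.support, σ (c * coeff m G) * ∏ i, v i ^ m i = 0 := by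
      intro σ
      have h3 := hGv v hv σ.symm
      rw [eval_eq'] at h3
      have h4 := congrArg σ h3
      rw [map_zero, map_sum] at h4
      have h5 : ∀ m ∈ G.support, σ (c * coeff m G) * ∏ i, v i ^ m i =
          σ c * σ (coeff m G * ∏ i, (σ.symm (v i)) ^ m i) := by
        intro m _
        rw [map_mul, map_mul, map_prod]
        simp only [map_pow, AlgEquiv.apply_symm_apply]
        ring
      rw [Finset.sum_congr rfl h5, ← Finset.mul_sum, h4, mul_zero]
    rw [h1]
    calc ∑ m ∈ G.support, (∑ σ : E ≃ₐ[K] E, σ (c * coeff m G)) * ∏ i, v i ^ m i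
        = ∑ m ∈ G.support, ∑ σ : E ≃ₐ[K] E, σ (c * coeff m G) * ∏ i, v i ^ m i := by
          apply Finset.sum_congr rfl
          intro m _
          rw [Finset.sum_mul]
      _ = ∑ σ : E ≃ₐ[K] E, ∑ m ∈ G.support, σ (c * coeff m G) * ∏ i, v i ^ m i :=
          Finset.sum_comm
      _ = 0 := Finset.sum_eq_zero fun σ _ => h2 σ

end descent

section finite

variable {K E : Type u} [Field K] [Field E] [Algebra K E] [FiniteDimensional K E] [IsGalois K E]
  {n : ℕ}

/-- Chudnovsky's inequality for forms over `K` and points with coordinates in a finite Galois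
extension `E`. -/
theorem chud_finite (hn : 1 ≤ n) (V : Set (Fin (n + 1) → E)) (hVf : V.Finite) (hV : V.Nonempty)
    (hV0 : ∀ v ∈ V, v ≠ 0) (a m d : ℕ)
    (hlow : ∀ (G : MvPolynomial (Fin (n + 1)) K) (d' : ℕ), G ≠ 0 → G.IsHomogeneous d' →
      (∀ v ∈ V, aeval v G = 0) → a ≤ d')
    (F : MvPolynomial (Fin (n + 1)) K) (hF0 : F ≠ 0) (hF : F.IsHomogeneous d)
    (hFv : ∀ v ∈ V, map (algebraMap K E) F ∈ mI v ^ m) :
    m * (a + n - 1) ≤ d * n := by
  classical
  set Z : Set (Fin (n + 1) → E) := {w | ∃ v ∈ V, ∃ σ : E ≃ₐ[K] E, w = fun i => σ (v i)} with hZ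
  have hZV : V ⊆ Z := fun v hv => ⟨v, hv, AlgEquiv.refl, rfl⟩
  have hZf : Z.Finite := by
    have h1 : Z ⊆ ⋃ σ : E ≃ₐ[K] E, (fun (v : Fin (n + 1) → E) i => σ (v i)) '' V := by
      rintro w ⟨v, hv, σ, rfl⟩
      exact Set.mem_iUnion.2 ⟨σ, v, hv, rfl⟩
    exact (Set.finite_iUnion fun σ => hVf.image _).subset h1
  have hZ0 : ∀ w ∈ Z, w ≠ 0 := by
    rintro w ⟨v, hv, σ, rfl⟩ h
    apply hV0 v hv
    funext i
    have := congrFun h i
    exact (map_eq_zero σ).1 this
  obtain ⟨v₀, hv₀⟩ := hV
  have h1 := demailly_fat E n 1 a m d Z (fun _ => 1) (map (algebraMap K E) F) hn le_rfl hZf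
    ⟨v₀, hZV hv₀, le_rfl⟩ hZ0 ?_ ?_ (hF.map _) ?_
  · have h2 : 1 + n - 1 = n := by omega
    rwa [h2] at h1
  · intro G d' hG0 hG hGv
    obtain ⟨H, hH0, hH, hHv⟩ := descent (K := K) V G d' hG0 hG (by
      intro v hv σ
      have := hGv (fun i => σ (v i)) ⟨v, hv, σ, rfl⟩
      rw [mul_one, pow_one] at this
      exact this)
    exact hlow H d' hH0 hH hHv
  · intro h
    apply hF0
    exact map_injective _ (algebraMap K E).injective (by rw [h, map_zero])
  · rintro w ⟨v, hv, σ, rfl⟩
    rw [mul_one, mem_mI_map_iff]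
    intro b hb
    have h3 := (mem_mI_map_iff (algebraMap K E) v F m).1 (hFv v hv) b hb
    have h4 := congrArg σ h3
    rw [map_zero] at h4
    rw [← h4, ← coe_eval₂Hom, ← coe_eval₂Hom]
    have h5 : (σ : E →+* E).comp (eval₂Hom (algebraMap K E) v) =
        eval₂Hom (algebraMap K E) (fun i => σ (v i)) := by
      apply MvPolynomial.ringHom_ext
      · intro r
        simp
      · intro i
        simp
    exact (DFunLike.congr_fun h5 (hd b F)).symm

end finite

section separable

variable {K : Type u} [Field K] {n : ℕ}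

/-- Chudnovsky's inequality for forms over `K` and points with coordinates in a Galois
extension `L`. -/
theorem chud_sep (L : Type u) [Field L] [Algebra K L] [IsGalois K L] (hn : 1 ≤ n)
    (V : Set (Fin (n + 1) → L)) (hVf : V.Finite) (hV : V.Nonempty)
    (hV0 : ∀ v ∈ V, v ≠ 0) (a m d : ℕ)
    (hlow : ∀ (G : MvPolynomial (Fin (n + 1)) K) (d' : ℕ), G ≠ 0 → G.IsHomogeneous d' →
      (∀ v ∈ V, aeval v G = 0) → a ≤ d')
    (F : MvPolynomial (Fin (n + 1)) K) (hF0 : F ≠ 0) (hF : F.IsHomogeneous d)
    (hFv : ∀ v ∈ V, map (algebraMap K L) F ∈ mI v ^ m) :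
    m * (a + n - 1) ≤ d * n := by
  classical
  set S : Set L := ⋃ v ∈ V, Set.range v with hS
  have hSf : S.Finite := hVf.biUnion fun v _ => Set.finite_range v
  have : Finite S := hSf
  let E := FiniteGaloisIntermediateField.adjoin K S
  have hSE : ∀ v ∈ V, ∀ i, v i ∈ E.toIntermediateField := by
    intro v hv i
    apply FiniteGaloisIntermediateField.subset_adjoin K S
    rw [hS]
    exact Set.mem_biUnion hv ⟨i, rfl⟩
  let ι : (Fin (n + 1) → E) → (Fin (n + 1) → L) := fun v i => (v i : L)
  have hι : Function.Injective ι := by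
    intro v v' h
    funext i
    exact Subtype.ext (congrFun h i)
  set V' : Set (Fin (n + 1) → E) := ι ⁻¹' V with hV'
  have hVE : ∀ v ∈ V, ∃ v' ∈ V', ι v' = v := by
    intro v hv
    exact ⟨fun i => ⟨v i, hSE v hv i⟩, hv, rfl⟩
  have hVf' : V'.Finite := hVf.preimage hι.injOn
  apply chud_finite (K := K) (E := E) hn V' hVf' ?_ ?_ a m d ?_ F hF0 hF ?_
  · obtain ⟨v, hv⟩ := hV
    obtain ⟨v', hv', -⟩ := hVE v hv
    exact ⟨v', hv'⟩
  · intro v hv h
    apply hV0 _ hv
    funext i
    have := congrFun h i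
    change ((v i : E) : L) = 0
    rw [this]
    rfl
  · intro G d' hG0 hG hGv
    apply hlow G d' hG0 hG
    intro v hv
    obtain ⟨v', hv', rfl⟩ := hVE v hv
    have h1 := hGv v' hv'
    have h2 := congrArg (algebraMap E L) h1
    rw [map_zero] at h2
    have h3 : (IsScalarTower.toAlgHom K E L).comp (aeval v' : MvPolynomial (Fin (n + 1)) K →ₐ[K] E) =
        (aeval (ι v') : MvPolynomial (Fin (n + 1)) K →ₐ[K] L) := by
      apply MvPolynomial.algHom_ext
      intro i
      simp [ι]
    have h4 := DFunLike.congr_fun h3 G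
    rw [← h4]
    exact h2
  · intro v hv
    have h1 := hFv _ hv
    rw [mem_mI_map_iff] at h1 ⊢
    intro b hb
    have h2 := h1 b hb
    have h3 : (algebraMap E L).comp (eval₂Hom (algebraMap K E) v) =
        eval₂Hom (algebraMap K L) (ι v) := by
      apply MvPolynomial.ringHom_ext
      · intro r
        simp
      · intro i
        simp [ι]
    have h4 := DFunLike.congr_fun h3 (hd b F)
    rw [RingHom.comp_apply] at h4
    change (algebraMap E L) (eval₂ (algebraMap K E) v (hd b F)) = eval₂ (algebraMap K L) (ι v) (hd b F) at h4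
    rw [h2] at h4
    exact (map_eq_zero _).1 h4

end separable

end Pool.Agent.helper23_Chud
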